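import Pool.Agent.helper50.BW.M18
import Pool.Agent.helper50.BW.D14
import Pool.Agent.helper50.BW.P10
/-!
# The identity problem in the Burnside variety has linear average-case time complexity

For every sufficiently large odd `d` there is a deterministic multitape Turing machine which decides
whether a group word `w` is an identity of the Burnside variety of exponent `d` and whose running
time, averaged over the words of complexity `n`, is at most `C * n`.
-/
namespace Pool.Agent.Results.MP_79f0c4_al.AverageLinear

open Pool.Agent.helper50.BW

theorem result : ∃ d₀ : ℕ, ∀ d : ℕ, d₀ ≤ d → Odd d →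
    ∃ (M : TM) (T : List (ℕ × Bool) → ℕ),
      (∀ w : List (ℕ × Bool), M.HaltsIn (encW w) (T w) (IsId d w)) ∧
      ∃ C : ℝ, ∀ n : ℕ, 1 ≤ n → (∑ w ∈ Wn n, (T w : ℝ)) / (Wn n).card ≤ C * n := by
  obtain ⟨d₀, h⟩ := dec_statement main_statement
  refine ⟨max d₀ 3, fun d hd hodd => ?_⟩
  exact average_linear hodd (le_trans (le_max_right _ _) hd) (h d (le_trans (le_max_left _ _) hd) hodd)

end Pool.Agent.Results.MP_79f0c4_al.AverageLinear
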